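import Mathlib
import Pool.Agent.Lib.MP_b8b239_pr.Basic
import Pool.Agent.Lib.MP_b8b239_pr.Params

/-!
# The Nelson-Nguyen bound for SparseStack

For every failure probability `δ₀ > 0` there is an absolute constant `C` such that for all
`n ≥ r ≥ 2` and `ε ∈ (0, 1)` there are `ζ ≤ C (log r) / ε` and `b` with `b ζ ≤ C r / ε ^ 2` for
which the SparseStack with parameters `ζ, b` is an oblivious subspace embedding with constants
`1 - ε, 1 + ε` for `r`-dimensional subspaces.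
-/

namespace Pool.Agent.Results.MP_b8b239_pr.NelsonNguyen

open Finset Matrix

/-- The SparseStack matrix `Ω ∈ ℝ^{n × (ζ b)}` of an outcome `ω`; the columns are indexed by pairs
(block, position in the block). For row `i` and block `j`, `(ω i j).1` is the position `s_{ij}` of
the nonzero entry and `(ω i j).2` its sign `ϱ_{ij}` (`true` is `+1`, `false` is `-1`), so the entry
of `Ω` in row `i` and column `(j, c)` is `± ζ ^ (-1/2)` if `c = s_{ij}` and `0` otherwise. -/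
noncomputable def sparseStack {n ζ b : ℕ} (ω : Fin n → Fin ζ → Fin b × Bool) :
    Matrix (Fin n) (Fin ζ × Fin b) ℝ :=
  fun i c => if (ω i c.1).1 = c.2 then
    (if (ω i c.1).2 then (Real.sqrt ζ)⁻¹ else -(Real.sqrt ζ)⁻¹) else 0

/-- The sketch `Ωᵀ x`. -/
noncomputable def sketch {n ζ b : ℕ} (ω : Fin n → Fin ζ → Fin b × Bool)
    (x : EuclideanSpace ℝ (Fin n)) : EuclideanSpace ℝ (Fin ζ × Fin b) :=
  WithLp.toLp 2 ((sparseStack ω)ᵀ *ᵥ x.ofLp)

/-- `SparseStack` is an oblivious subspace embedding for `r`-dimensional subspaces of `ℝ^n` with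
constants `α, β` and failure probability `δ₀`: for every fixed subspace `V` of dimension `r`, the
proportion of the outcomes `ω` (all positions and signs are independent and uniform, that is, `ω`
is uniform in the finite set of all outcomes) for which `α ‖x‖ ≤ ‖Ωᵀ x‖ ≤ β ‖x‖` for all `x ∈ V`
is at least `1 - δ₀`. -/
def IsOSE (n ζ b r : ℕ) (α β δ₀ : ℝ) : Prop :=
  ∀ V : Submodule ℝ (EuclideanSpace ℝ (Fin n)), Module.finrank ℝ V = r →
    1 - δ₀ ≤ (Nat.card {ω : Fin n → Fin ζ → Fin b × Bool //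
        ∀ x ∈ V, α * ‖x‖ ≤ ‖sketch ω x‖ ∧ ‖sketch ω x‖ ≤ β * ‖x‖} : ℝ) /
      (Nat.card (Fin n → Fin ζ → Fin b × Bool) : ℝ)

open Pool.Agent.NN
open scoped Matrix.Norms.L2Operator

theorem sparseStack_eq {n ζ b : ℕ} (ω : Fin n → Fin ζ → Fin b × Bool) :
    sparseStack ω = (Real.sqrt ζ)⁻¹ • stack ω := by
  ext i c
  simp only [sparseStack, stack, Matrix.smul_apply, smul_eq_mul, sgn]
  split_ifs <;> ring

/-- The columns of `U` are an orthonormal basis of `V`. -/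
theorem exists_basis_matrix {n r : ℕ} (V : Submodule ℝ (EuclideanSpace ℝ (Fin n)))
    (hV : Module.finrank ℝ V = r) : ∃ U : Matrix (Fin n) (Fin r) ℝ, Uᵀ * U = 1 ∧
      ∀ x ∈ V, ∃ c : Fin r → ℝ, x.ofLp = U *ᵥ c := by
  subst hV
  set B := stdOrthonormalBasis ℝ V with hB
  refine ⟨fun i l => (B l : EuclideanSpace ℝ (Fin n)) i, ?_, ?_⟩
  · ext l l'
    rw [Matrix.mul_apply]
    have h := orthonormal_iff_ite.1 B.orthonormal l l'
    rw [Matrix.one_apply, ← h]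
    rw [Submodule.coe_inner, PiLp.inner_apply]
    apply Finset.sum_congr rfl
    intro i _
    simp [Matrix.transpose_apply, mul_comm]
  · intro x hx
    refine ⟨fun l => B.repr ⟨x, hx⟩ l, ?_⟩
    have h := B.sum_repr ⟨x, hx⟩
    have h' := congrArg (Submodule.subtype V) h
    rw [map_sum] at h'
    simp only [map_smul, Submodule.subtype_apply] at h'
    funext i
    have h2 := congrArg (fun z : EuclideanSpace ℝ (Fin n) => z i) h'
    simp only [WithLp.ofLp_sum, WithLp.ofLp_smul, Finset.sum_apply, Pi.smul_apply,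
      smul_eq_mul] at h2
    rw [Matrix.mulVec, dotProduct]
    rw [← h2]
    apply Finset.sum_congr rfl
    intro l _
    ring

/-- If the deviation is at most `ε` then the sketch is a subspace embedding. -/
theorem good_of_dev {n ζ b r : ℕ} (U : Matrix (Fin n) (Fin r) ℝ) (hU : Uᵀ * U = 1)
    (ω : Fin n → Fin ζ → Fin b × Bool) (ε : ℝ) (hε : 0 < ε) (hε1 : ε < 1)
    (hdev : ‖(ζ : ℝ)⁻¹ • (Uᵀ * stack ω * (stack ω)ᵀ * U) - 1‖ ≤ ε)
    (x : EuclideanSpace ℝ (Fin n)) (c : Fin r → ℝ) (hx : x.ofLp = U *ᵥ c) :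
    (1 - ε) * ‖x‖ ≤ ‖sketch ω x‖ ∧ ‖sketch ω x‖ ≤ (1 + ε) * ‖x‖ := by
  set W : Matrix (Fin r) (Fin r) ℝ := (ζ : ℝ)⁻¹ • (Uᵀ * stack ω * (stack ω)ᵀ * U) - 1 with hW
  have hxn : ‖x‖ ^ 2 = c ⬝ᵥ c := by
    rw [EuclideanSpace.norm_sq_eq]
    have : ∑ i, ‖x i‖ ^ 2 = (U *ᵥ c) ⬝ᵥ (U *ᵥ c) := by
      rw [← hx]
      simp [dotProduct, pow_two]
    rw [this, Matrix.dotProduct_mulVec, Matrix.vecMul_mulVec, hU, Matrix.vecMul_one]
  have hcn : ‖(WithLp.toLp 2 c : EuclideanSpace ℝ (Fin r))‖ ^ 2 = c ⬝ᵥ c := by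
    rw [EuclideanSpace.norm_sq_eq]
    simp [dotProduct, pow_two]
  have hsn : ‖sketch ω x‖ ^ 2 = c ⬝ᵥ (((ζ : ℝ)⁻¹ • (Uᵀ * stack ω * (stack ω)ᵀ * U)) *ᵥ c) := by
    rw [EuclideanSpace.norm_sq_eq]
    have h1 : ∑ i, ‖(sketch ω x) i‖ ^ 2 =
        ((sparseStack ω)ᵀ *ᵥ (U *ᵥ c)) ⬝ᵥ ((sparseStack ω)ᵀ *ᵥ (U *ᵥ c)) := by
      rw [← hx]
      simp [sketch, dotProduct, pow_two]
    rw [h1, sparseStack_eq, Matrix.transpose_smul, Matrix.smul_mulVec, smul_dotProduct,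
      dotProduct_smul, smul_smul]
    have h2 : (Real.sqrt ζ)⁻¹ * (Real.sqrt ζ)⁻¹ = (ζ : ℝ)⁻¹ := by
      rw [← mul_inv, Real.mul_self_sqrt (by positivity)]
    rw [h2, Matrix.smul_mulVec, dotProduct_smul]
    congr 1
    rw [Matrix.mulVec_mulVec, Matrix.dotProduct_mulVec, Matrix.vecMul_mulVec,
      ← Matrix.dotProduct_mulVec]
    simp only [Matrix.transpose_mul, Matrix.transpose_transpose, Matrix.mul_assoc]
  have hdiff : |‖sketch ω x‖ ^ 2 - ‖x‖ ^ 2| ≤ ε * ‖x‖ ^ 2 := by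
    have h1 : ‖sketch ω x‖ ^ 2 - ‖x‖ ^ 2 = c ⬝ᵥ (W *ᵥ c) := by
      rw [hsn, hxn, hW, Matrix.sub_mulVec, Matrix.one_mulVec, dotProduct_sub]
    rw [h1]
    have h2 : c ⬝ᵥ (W *ᵥ c) = inner ℝ (WithLp.toLp 2 c : EuclideanSpace ℝ (Fin r))
        (Matrix.toEuclideanCLM (n := Fin r) (𝕜 := ℝ) W (WithLp.toLp 2 c)) := by
      rw [EuclideanSpace.inner_eq_star_dotProduct, Matrix.ofLp_toEuclideanCLM, star_trivial,
        dotProduct_comm]
    rw [h2]
    refine (abs_real_inner_le_norm _ _).trans ?_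
    calc ‖(WithLp.toLp 2 c : EuclideanSpace ℝ (Fin r))‖ *
          ‖Matrix.toEuclideanCLM (n := Fin r) (𝕜 := ℝ) W (WithLp.toLp 2 c)‖
        ≤ ‖(WithLp.toLp 2 c : EuclideanSpace ℝ (Fin r))‖ *
          (‖Matrix.toEuclideanCLM (n := Fin r) (𝕜 := ℝ) W‖ *
            ‖(WithLp.toLp 2 c : EuclideanSpace ℝ (Fin r))‖) := by
          gcongr
          exact ContinuousLinearMap.le_opNorm _ _
      _ = ‖W‖ * ‖(WithLp.toLp 2 c : EuclideanSpace ℝ (Fin r))‖ ^ 2 := by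
          rw [← Matrix.cstar_norm_def]; ring
      _ ≤ ε * ‖(WithLp.toLp 2 c : EuclideanSpace ℝ (Fin r))‖ ^ 2 := by gcongr
      _ = ε * ‖x‖ ^ 2 := by rw [hcn, hxn]
  have hx0 : 0 ≤ ‖x‖ := norm_nonneg _
  have hs0 : 0 ≤ ‖sketch ω x‖ := norm_nonneg _
  rw [abs_le] at hdiff
  constructor
  · apply le_of_pow_le_pow_left₀ two_ne_zero hs0
    nlinarith [sq_nonneg ‖x‖, mul_nonneg (mul_nonneg hε.le (sub_nonneg.2 hε1.le)) (sq_nonneg ‖x‖)]
  · apply le_of_pow_le_pow_left₀ two_ne_zero (by positivity)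
    nlinarith [sq_nonneg ‖x‖, mul_nonneg (sq_nonneg ε) (sq_nonneg ‖x‖),
      mul_nonneg hε.le (sq_nonneg ‖x‖)]

theorem result : ∀ δ₀ : ℝ, 0 < δ₀ → ∃ C : ℝ, 0 < C ∧ ∀ n r : ℕ, 2 ≤ r → r ≤ n →
    ∀ ε : ℝ, 0 < ε → ε < 1 → ∃ ζ b : ℕ, 1 ≤ ζ ∧ 1 ≤ b ∧
      (ζ : ℝ) ≤ C * Real.log r / ε ∧ ((b * ζ : ℕ) : ℝ) ≤ C * r / ε ^ 2 ∧
      IsOSE n ζ b r (1 - ε) (1 + ε) δ₀ := by
  intro δ hδ
  obtain ⟨C, hC, hmain⟩ := pa_main δ hδ
  refine ⟨C, hC, ?_⟩
  intro n r hr hrn ε hε hε1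
  obtain ⟨ζ, b, hζ, hb, h1, h2, h3⟩ := hmain n r hr hrn ε hε hε1
  refine ⟨ζ, b, hζ, hb, h1, h2, ?_⟩
  intro V hV
  obtain ⟨U, hU, hUV⟩ := exists_basis_matrix V hV
  have hdev := h3 U hU
  classical
  set Ω := Fin n → Fin ζ → Fin b × Bool with hΩ
  have hne : Nonempty (Fin b × Bool) := ⟨⟨⟨0, by omega⟩, true⟩⟩
  have hcard : (0 : ℝ) < Fintype.card Ω := by
    have : Nonempty Ω := ⟨fun _ _ => hne.some⟩
    exact_mod_cast Fintype.card_pos
  set f : Ω → ℝ := fun ω => ‖(ζ : ℝ)⁻¹ • (Uᵀ * stack ω * (stack ω)ᵀ * U) - 1‖ with hf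
  have hbad : ((univ.filter (fun ω : Ω => ¬ f ω ≤ ε)).card : ℝ) ≤ δ * Fintype.card Ω := by
    have h4 : ε * ((univ.filter (fun ω : Ω => ¬ f ω ≤ ε)).card : ℝ) ≤ ∑ ω : Ω, f ω := by
      calc ε * ((univ.filter (fun ω : Ω => ¬ f ω ≤ ε)).card : ℝ)
          = ∑ _ω ∈ univ.filter (fun ω : Ω => ¬ f ω ≤ ε), ε := by
            rw [Finset.sum_const, nsmul_eq_mul]; ring
        _ ≤ ∑ ω ∈ univ.filter (fun ω : Ω => ¬ f ω ≤ ε), f ω := by
            apply Finset.sum_le_sum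
            intro ω hω
            rw [Finset.mem_filter] at hω
            exact (not_le.1 hω.2).le
        _ ≤ ∑ ω : Ω, f ω :=
            Finset.sum_le_sum_of_subset_of_nonneg (Finset.filter_subset _ _)
              (fun _ _ _ => norm_nonneg _)
    have h5 : ∑ ω : Ω, f ω ≤ δ * ε * Fintype.card Ω := by
      rw [div_le_iff₀ hcard] at hdev
      exact hdev
    have h6 : ε * ((univ.filter (fun ω : Ω => ¬ f ω ≤ ε)).card : ℝ) ≤
        ε * (δ * Fintype.card Ω) := by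
      calc _ ≤ _ := h4
        _ ≤ _ := h5
        _ = _ := by ring
    exact le_of_mul_le_mul_left h6 hε
  have hgood : ((univ.filter (fun ω : Ω => f ω ≤ ε)).card : ℝ) ≤
      (Nat.card {ω : Ω // ∀ x ∈ V, (1 - ε) * ‖x‖ ≤ ‖sketch ω x‖ ∧
        ‖sketch ω x‖ ≤ (1 + ε) * ‖x‖} : ℝ) := by
    rw [Nat.card_eq_fintype_card, Fintype.card_subtype]
    have : univ.filter (fun ω : Ω => f ω ≤ ε) ⊆ univ.filter (fun ω : Ω =>
        ∀ x ∈ V, (1 - ε) * ‖x‖ ≤ ‖sketch ω x‖ ∧ ‖sketch ω x‖ ≤ (1 + ε) * ‖x‖) := by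
      intro ω hω
      rw [Finset.mem_filter] at hω ⊢
      refine ⟨mem_univ _, ?_⟩
      intro x hx
      obtain ⟨c, hc⟩ := hUV x hx
      exact good_of_dev U hU ω ε hε hε1 hω.2 x c hc
    exact_mod_cast Finset.card_le_card this
  have hsum : ((univ.filter (fun ω : Ω => f ω ≤ ε)).card : ℝ) +
      ((univ.filter (fun ω : Ω => ¬ f ω ≤ ε)).card : ℝ) = Fintype.card Ω := by
    rw [← Nat.cast_add, Finset.card_filter_add_card_filter_not, Finset.card_univ]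
  rw [Nat.card_eq_fintype_card (α := Ω), le_div_iff₀ hcard]
  linarith

end Pool.Agent.Results.MP_b8b239_pr.NelsonNguyen
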